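import Mathlib

/-! Numerical sum for the early time estimate (MP_28263e, page of helper32). -/

namespace Pool.Agent.H8.B4

open Finset

/-- the majorant of the terms -/
noncomputable def tE (m : ℕ) : ℝ := (m : ℝ) * ((m : ℝ) - 1) ^ 2 * (3 / 20) ^ (m - 4) / 300

theorem tE_nonneg {m : ℕ} : 0 ≤ tE m := by
  unfold tE; positivity

theorem tE_succ {m : ℕ} (hm : 4 ≤ m) : 3 * tE (m + 1) ≤ tE m := by
  unfold tE
  obtain ⟨k, rfl⟩ := Nat.exists_eq_add_of_le hm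
  have e1 : 4 + k + 1 - 4 = k + 1 := by omega
  have e2 : 4 + k - 4 = k := by omega
  rw [e1, e2, pow_succ (3 / 20 : ℝ) k]
  have hk : (0 : ℝ) ≤ k := Nat.cast_nonneg k
  have hp : (0 : ℝ) ≤ (3 / 20) ^ k := by positivity
  push_cast
  have key : 3 * ((4 + (k : ℝ) + 1) * ((4 + (k : ℝ) + 1) - 1) ^ 2 * (3 / 20))
      ≤ (4 + (k : ℝ)) * ((4 + (k : ℝ)) - 1) ^ 2 := by
    nlinarith [mul_nonneg hk hk, mul_nonneg (mul_nonneg hk hk) hk]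
  have := mul_le_mul_of_nonneg_right key hp
  nlinarith

theorem sum_tE (k : ℕ) :
    ∑ m ∈ Icc 4 (k + 3), tE m + 3 / 2 * tE (k + 4) ≤ 3 / 2 * tE 4 := by
  induction k with
  | zero => simp
  | succ k ih =>
    have hI : Icc 4 (k + 1 + 3) = insert (k + 4) (Icc 4 (k + 3)) := by
      ext x; simp only [mem_Icc, mem_insert]; omega
    rw [hI, sum_insert (by simp)]
    have h := tE_succ (m := k + 4) (by omega)
    have e : k + 1 + 4 = k + 4 + 1 := by omega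
    rw [e]
    linarith

theorem term_le {u v : ℝ} (hu : 0 ≤ u) (hv : 0 ≤ v) (hu20 : 20 * u ≤ 1) (hv20 : 20 * v ≤ 1)
    {m : ℕ} (hm : 4 ≤ m) :
    (m : ℝ) * ((m : ℝ) - 1) ^ 2 * (6 / 5 * 3 ^ (m - 4) * v ^ (m - 3)) * (10 / 9 * u) ≤ tE m := by
  obtain ⟨k, rfl⟩ := Nat.exists_eq_add_of_le hm
  have e1 : 4 + k - 3 = k + 1 := by omega
  have e2 : 4 + k - 4 = k := by omega
  unfold tE
  rw [e1, e2]
  have hv' : v ≤ 1 / 20 := by linarith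
  have hu' : u ≤ 1 / 20 := by linarith
  have hp : v ^ (k + 1) ≤ (1 / 20) ^ (k + 1) := pow_le_pow_left₀ hv hv' _
  have hA : (0 : ℝ) ≤ ((4 + k : ℕ) : ℝ) * (((4 + k : ℕ) : ℝ) - 1) ^ 2 := by positivity
  have h1 : v ^ (k + 1) * u ≤ (1 / 20) ^ (k + 1) * (1 / 20) :=
    mul_le_mul hp hu' hu (by positivity)
  have h3 : (0 : ℝ) ≤ 6 / 5 * 3 ^ k * (10 / 9) := by positivity
  have h2 := mul_le_mul_of_nonneg_left h1 (mul_nonneg hA h3)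
  have e3 : ((4 + k : ℕ) : ℝ) * (((4 + k : ℕ) : ℝ) - 1) ^ 2 * (6 / 5 * 3 ^ k * (10 / 9))
      * ((1 / 20) ^ (k + 1) * (1 / 20))
      = ((4 + k : ℕ) : ℝ) * (((4 + k : ℕ) : ℝ) - 1) ^ 2 * (3 / 20) ^ k / 300 := by
    have : (3 / 20 : ℝ) ^ k = 3 ^ k * (1 / 20) ^ k := by rw [← mul_pow]; norm_num
    rw [this, pow_succ]; ring
  calc ((4 + k : ℕ) : ℝ) * (((4 + k : ℕ) : ℝ) - 1) ^ 2 * (6 / 5 * 3 ^ k * v ^ (k + 1))
        * (10 / 9 * u)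
      = ((4 + k : ℕ) : ℝ) * (((4 + k : ℕ) : ℝ) - 1) ^ 2 * (6 / 5 * 3 ^ k * (10 / 9))
        * (v ^ (k + 1) * u) := by ring
    _ ≤ _ := h2
    _ = _ := e3

/-- lemma (5) of the page of helper32 -/
theorem num_sumE' {u v : ℝ} (hu : 0 ≤ u) (hv : 0 ≤ v) (hu20 : 20 * u ≤ 1)
    (hv20 : 20 * v ≤ 1) (M : ℕ) :
    ∑ m ∈ Finset.Icc 3 (M - 1), (m : ℝ) * ((m : ℝ) - 1) ^ 2
      * (if m = 3 then 3 / 8 else 6 / 5 * 3 ^ (m - 4) * v ^ (m - 3)) * (10 / 9 * u)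
      ≤ 9 / 20 := by
  rcases lt_or_ge (M - 1) 3 with h | h
  · rw [Finset.Icc_eq_empty (by omega)]; simp; norm_num
  · obtain ⟨k, hk⟩ := Nat.exists_eq_add_of_le h
    have hM : M - 1 = k + 3 := by omega
    rw [hM]
    have hI : Icc 3 (k + 3) = insert 3 (Icc 4 (k + 3)) := by
      ext x; simp only [mem_Icc, mem_insert]; omega
    rw [hI, sum_insert (by simp)]
    have hS : ∑ m ∈ Icc 4 (k + 3), (m : ℝ) * ((m : ℝ) - 1) ^ 2
        * (if m = 3 then 3 / 8 else 6 / 5 * 3 ^ (m - 4) * v ^ (m - 3)) * (10 / 9 * u)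
        ≤ ∑ m ∈ Icc 4 (k + 3), tE m := by
      apply sum_le_sum
      intro m hm
      have h4 : 4 ≤ m := (mem_Icc.1 hm).1
      rw [if_neg (by omega)]
      exact term_le hu hv hu20 hv20 h4
    have hT := sum_tE k
    have hN : 0 ≤ tE (k + 4) := tE_nonneg
    have h4 : tE 4 = 3 / 25 := by unfold tE; norm_num
    have h3 : ((3 : ℕ) : ℝ) * (((3 : ℕ) : ℝ) - 1) ^ 2
        * (if (3 : ℕ) = 3 then 3 / 8 else 6 / 5 * 3 ^ (3 - 4) * v ^ (3 - 3)) * (10 / 9 * u)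
        ≤ 1 / 4 := by
      rw [if_pos rfl]; push_cast; linarith
    rw [h4] at hT
    linarith

theorem num_sumE {q a : ℝ} (_hq : 0 < q) (_ha : 0 < a) {u v : ℝ} (hu : 0 ≤ u) (hv : 0 ≤ v)
    (hu20 : 20 * u ≤ 1) (hv20 : 20 * v ≤ 1) (M : ℕ) :
    ∑ m ∈ Finset.Icc 3 (M - 1), (m : ℝ) * ((m : ℝ) - 1) ^ 2
      * (if m = 3 then 3 / 8 else 6 / 5 * 3 ^ (m - 4) * v ^ (m - 3)) * (10 / 9 * u)
      ≤ 9 / 20 := num_sumE' hu hv hu20 hv20 M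

end Pool.Agent.H8.B4
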