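import Mathlib

/-! The algebraic inequality `Ψ ≥ 0` for four nodes (page of helper32, proof of helper68). -/

namespace Pool.Agent.H8.B4

/-- `Ψ ≥ 0` in units of `a`: `q_j ∈ [0, 3a]`, `Σ q_j = 3a + d`, `Σ e_j = -d`. -/
theorem psi_nonneg (a d q1 q2 q3 e1 e2 e3 : ℝ)
    (h1 : 0 ≤ q1) (h2 : 0 ≤ q2) (h3 : 0 ≤ q3)
    (k1 : q1 ≤ 3 * a) (k2 : q2 ≤ 3 * a) (k3 : q3 ≤ 3 * a)
    (hq : q1 + q2 + q3 = 3 * a + d) (he : e1 + e2 + e3 = -d) :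
    0 ≤ (1 / 2) * (e1 ^ 2 * (3 * a + d + q1) + e2 ^ 2 * (3 * a + d + q2)
        + e3 ^ 2 * (3 * a + d + q3)) + (a - d) * d ^ 2
        - d * (q1 * e1 + q2 * e2 + q3 * e3) := by
  -- r_j = 3a - q_j, D = 6a - d, f_j = e_j + d/3
  obtain ⟨r1, hr1⟩ : ∃ r1, r1 = 3 * a - q1 := ⟨_, rfl⟩
  obtain ⟨r2, hr2⟩ : ∃ r2, r2 = 3 * a - q2 := ⟨_, rfl⟩
  obtain ⟨r3, hr3⟩ : ∃ r3, r3 = 3 * a - q3 := ⟨_, rfl⟩
  obtain ⟨f1, hf1⟩ : ∃ f1, f1 = e1 + d / 3 := ⟨_, rfl⟩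
  obtain ⟨f2, hf2⟩ : ∃ f2, f2 = e2 + d / 3 := ⟨_, rfl⟩
  have hq1 : q1 = 3 * a - r1 := by linarith
  have hq2 : q2 = 3 * a - r2 := by linarith
  have hq3 : q3 = 3 * a - r3 := by linarith
  have he1 : e1 = f1 - d / 3 := by linarith
  have he2 : e2 = f2 - d / 3 := by linarith
  have he3 : e3 = -(f1 + f2) - d / 3 := by linarith
  have hd : d = 6 * a - (r1 + r2 + r3) := by linarith
  have b1 : 0 ≤ r1 := by linarith
  have b2 : 0 ≤ r2 := by linarith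
  have b3 : 0 ≤ r3 := by linarith
  have c1 : r1 ≤ 3 * a := by linarith
  have c2 : r2 ≤ 3 * a := by linarith
  have c3 : r3 ≤ 3 * a := by linarith
  have ha : 0 ≤ 3 * a := le_trans h1 k1
  have hsum : r1 + r2 + r3 ≤ 9 * a := by linarith
  rw [hq1, hq2, hq3, he1, he2, he3]
  obtain ⟨D, hD⟩ : ∃ D, D = r1 + r2 + r3 := ⟨_, rfl⟩
  obtain ⟨f3, hf3⟩ : ∃ f3, f3 = -(f1 + f2) := ⟨_, rfl⟩
  obtain ⟨S, hS⟩ : ∃ S, S = r1 * f1 + r2 * f2 + r3 * f3 := ⟨_, rfl⟩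
  obtain ⟨F, hF⟩ : ∃ F, F = f1 ^ 2 + f2 ^ 2 + f3 ^ 2 := ⟨_, rfl⟩
  have hD0 : 0 ≤ D := by rw [hD]; positivity
  have hD9 : D ≤ 9 * a := by rw [hD]; linarith
  have hF0 : 0 ≤ F := by rw [hF]; positivity
  -- the value
  have key : (1 / 2) * ((f1 - d / 3) ^ 2 * (3 * a + d + (3 * a - r1))
        + (f2 - d / 3) ^ 2 * (3 * a + d + (3 * a - r2))
        + (-(f1 + f2) - d / 3) ^ 2 * (3 * a + d + (3 * a - r3))) + (a - d) * d ^ 2
        - d * ((3 * a - r1) * (f1 - d / 3) + (3 * a - r2) * (f2 - d / 3)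
          + (3 * a - r3) * (-(f1 + f2) - d / 3))
      = (4 / 9) * d ^ 2 * D + (4 / 3) * d * S
        + (1 / 2) * ((6 * a + d - r1) * f1 ^ 2 + (6 * a + d - r2) * f2 ^ 2
          + (6 * a + d - r3) * f3 ^ 2) := by
    rw [hS, hf3, hD, hd]; ring
  rw [key]
  -- Cauchy-Schwarz: S² ≤ (D (9a - D)/3) F
  have hV : 3 * S ^ 2 ≤ (3 * (r1 ^ 2 + r2 ^ 2 + r3 ^ 2) - D ^ 2) * F := by
    have e : (3 * (r1 ^ 2 + r2 ^ 2 + r3 ^ 2) - D ^ 2) * F - 3 * S ^ 2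
        = ((r1 - D / 3) * f2 - (r2 - D / 3) * f1) ^ 2 * 3
          + ((r1 - D / 3) * f3 - (r3 - D / 3) * f1) ^ 2 * 3
          + ((r2 - D / 3) * f3 - (r3 - D / 3) * f2) ^ 2 * 3 := by
      rw [hS, hF, hf3, hD]; ring
    nlinarith [sq_nonneg ((r1 - D / 3) * f2 - (r2 - D / 3) * f1),
      sq_nonneg ((r1 - D / 3) * f3 - (r3 - D / 3) * f1),
      sq_nonneg ((r2 - D / 3) * f3 - (r3 - D / 3) * f2)]
  have hr : r1 ^ 2 + r2 ^ 2 + r3 ^ 2 ≤ 3 * a * D := by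
    rw [hD]; nlinarith [mul_nonneg b1 (sub_nonneg.2 c1), mul_nonneg b2 (sub_nonneg.2 c2),
      mul_nonneg b3 (sub_nonneg.2 c3)]
  have hS2 : 3 * S ^ 2 ≤ D * (9 * a - D) * F := by
    have : (3 * (r1 ^ 2 + r2 ^ 2 + r3 ^ 2) - D ^ 2) * F ≤ D * (9 * a - D) * F := by
      apply mul_le_mul_of_nonneg_right _ hF0
      nlinarith
    linarith
  have hd' : d = 6 * a - D := by rw [hD]; exact hd
  -- lower bound of the last sum
  have hL : (9 * a - D) * F ≤ (6 * a + d - r1) * f1 ^ 2 + (6 * a + d - r2) * f2 ^ 2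
      + (6 * a + d - r3) * f3 ^ 2 := by
    rw [hF]
    have x1 := mul_nonneg (sub_nonneg.2 c1) (sq_nonneg f1)
    have x2 := mul_nonneg (sub_nonneg.2 c2) (sq_nonneg f2)
    have x3 := mul_nonneg (sub_nonneg.2 c3) (sq_nonneg f3)
    rw [hd']
    nlinarith
  rcases hD0.eq_or_lt with h0 | h0
  · -- D = 0
    have hS0 : S = 0 := by
      have : 3 * S ^ 2 ≤ 0 := by rw [← h0] at hS2; linarith
      nlinarith [sq_nonneg S, pow_eq_zero_iff (two_ne_zero) |>.1 (le_antisymm (by linarith) (sq_nonneg S))]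
    rw [← h0, hS0]
    have : 0 ≤ (9 * a - D) * F := mul_nonneg (by linarith) hF0
    linarith
  · have hm : 0 ≤ D * ((4 / 9) * d ^ 2 * D + (4 / 3) * d * S
        + (1 / 2) * ((6 * a + d - r1) * f1 ^ 2 + (6 * a + d - r2) * f2 ^ 2
          + (6 * a + d - r3) * f3 ^ 2)) := by
      have e : D * ((4 / 9) * d ^ 2 * D + (4 / 3) * d * S
        + (1 / 2) * ((6 * a + d - r1) * f1 ^ 2 + (6 * a + d - r2) * f2 ^ 2
          + (6 * a + d - r3) * f3 ^ 2))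
          = (4 / 9) * (d * D + 3 / 2 * S) ^ 2 - S ^ 2
            + D / 2 * ((6 * a + d - r1) * f1 ^ 2 + (6 * a + d - r2) * f2 ^ 2
              + (6 * a + d - r3) * f3 ^ 2) := by ring
      rw [e]
      have m := mul_le_mul_of_nonneg_left hL (by linarith : (0:ℝ) ≤ D / 2)
      have g : 0 ≤ D * (9 * a - D) * F := mul_nonneg (mul_nonneg hD0 (by linarith)) hF0
      nlinarith [sq_nonneg (d * D + 3 / 2 * S)]
    exact nonneg_of_mul_nonneg_right hm h0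

end Pool.Agent.H8.B4
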